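import Pool.Agent.Helper18.NF.Stmts

/-!
# The valuation argument

`n` equations `∏ B_i(z_{ij}) = κ_j ∏ B_i(z_{i0})` in at most `n` unknowns `z_{i0}` over an algebraically
closed field have only constant solutions.
-/

set_option autoImplicit false

namespace Pool.Agent.Helper18.NF

open Pool.Agent.Helper14.BSC Polynomial

section

variable {K L Γ : Type} [Field K] [Field L] [Algebra K L] [LinearOrderedCommGroupWithZero Γ]
  (v : Valuation L Γ)

theorem vfn_int (hc : ∀ c : K, c ≠ 0 → v (algebraMap K L c) = 1) (P : K[X]) (z : L)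
    (hz : v z ≤ 1) : v (aeval z P) ≤ 1 := by
  have hc' : ∀ c : K, v (algebraMap K L c) ≤ 1 := fun c => by
    by_cases h : c = 0
    · rw [h, map_zero, map_zero]; exact zero_le
    · exact (hc c h).le
  induction P using Polynomial.induction_on with
  | C a => rw [aeval_C]; exact hc' a
  | add p q hp hq => rw [map_add]; exact (v.map_add _ _).trans (max_le hp hq)
  | monomial n a _ =>
    rw [map_mul, map_pow, aeval_X, aeval_C, map_mul, map_pow]
    exact mul_le_one' (hc' a) (pow_le_one' hz _)

theorem vfn_dom (hc : ∀ c : K, c ≠ 0 → v (algebraMap K L c) = 1) (z : L) (hz : 1 < v z) :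
    ∀ (n : ℕ) (P : K[X]), P ≠ 0 → P.natDegree = n → v (aeval z P) = v z ^ n := by
  have hc' : ∀ c : K, v (algebraMap K L c) ≤ 1 := fun c => by
    by_cases h : c = 0
    · rw [h, map_zero, map_zero]; exact zero_le
    · exact (hc c h).le
  intro n
  induction n with
  | zero =>
    intro P hP hn
    have h0 := Polynomial.eq_C_of_natDegree_eq_zero hn
    rw [h0, aeval_C, pow_zero]
    exact hc _ (fun h => hP (by rw [h0, h, C_0]))
  | succ n ih =>
    intro P hP hn
    have h1 : P.divX.natDegree = n := by
      rw [natDegree_divX_eq_natDegree_tsub_one, hn]; rfl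
    have h4' : P.divX * X + C (P.coeff 0) = P := P.divX_mul_X_add
    have h2 : P.divX ≠ 0 := by
      intro h
      rw [h, zero_mul, zero_add] at h4'
      rw [← h4', natDegree_C] at hn
      omega
    have h3 := ih P.divX h2 h1
    have h4 : aeval z P = aeval z P.divX * z + algebraMap K L (P.coeff 0) := by
      conv_lhs => rw [← h4']
      rw [map_add, map_mul, aeval_X, aeval_C]
    have h5 : v (aeval z P.divX * z) = v z ^ (n + 1) := by rw [map_mul, h3, pow_succ]
    have h6 : v (algebraMap K L (P.coeff 0)) < v (aeval z P.divX * z) := by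
      rw [h5]
      exact (hc' _).trans_lt (one_lt_pow' hz (Nat.succ_ne_zero n))
    rw [h4, v.map_add_eq_of_lt_left h6, h5]

/-- points with large absolute value -/
theorem vfn_big (hc : ∀ c : K, c ≠ 0 → v (algebraMap K L c) = 1) (A B : K[X]) (hD : Dyn A B)
    (z : L) (hz : 1 < v z) :
    v (aeval z B) = v z ^ B.natDegree ∧ v (aeval z A / aeval z B) = v z := by
  have hB : B ≠ 0 := fun h => by
    have := hD.pos
    rw [h, natDegree_zero] at this
    omega
  have hA : A ≠ 0 := fun h => by
    have := hD.deg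
    rw [h, natDegree_zero] at this
    omega
  have h1 := vfn_dom v hc z hz _ B hB rfl
  have h2 := vfn_dom v hc z hz _ A hA hD.deg
  refine ⟨h1, ?_⟩
  have hz0 : v z ≠ 0 := (zero_lt_one.trans hz).ne'
  rw [map_div₀, h1, h2, pow_succ, mul_div_assoc, mul_div_cancel₀]
  exact pow_ne_zero _ hz0

/-- integral points -/
theorem vfn_small (hc : ∀ c : K, c ≠ 0 → v (algebraMap K L c) = 1) (A B : K[X]) (hD : Dyn A B)
    (z : L) (hz : v z ≤ 1) (hB0 : aeval z B ≠ 0) :
    v (aeval z B) ≤ 1 ∧ (v (aeval z B) = 1 → v (aeval z A / aeval z B) ≤ 1) ∧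
      (v (aeval z B) < 1 → 1 < v (aeval z A / aeval z B)) := by
  have hA := vfn_int v hc A z hz
  refine ⟨vfn_int v hc B z hz, fun h => ?_, fun h => ?_⟩
  · rw [map_div₀, h, div_one]
    exact hA
  · obtain ⟨U, W, hUW⟩ := hD.cop
    have h1 : aeval z U * aeval z A + aeval z W * aeval z B = (1 : L) := by
      rw [← map_mul, ← map_mul, ← map_add, hUW, map_one]
    have hU := vfn_int v hc U z hz
    have hW := vfn_int v hc W z hz
    have hA1 : v (aeval z A) = 1 := by
      refine le_antisymm hA (not_lt.mp fun hlt => ?_)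
      have h2 : v (aeval z U * aeval z A + aeval z W * aeval z B) < 1 := by
        refine v.map_add_lt ?_ ?_
        · rw [map_mul]
          exact (mul_le_of_le_one_left' hU).trans_lt hlt
        · rw [map_mul]
          exact (mul_le_of_le_one_left' hW).trans_lt h
      rw [h1, map_one] at h2
      exact lt_irrefl _ h2
    have hpos : 0 < v (aeval z B) := by
      rw [zero_lt_iff]
      exact (Valuation.ne_zero_iff v).mpr hB0
    rw [map_div₀, hA1, lt_div_iff₀ hpos, one_mul]
    exact h

/-- the combinatorial part -/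
theorem vfn_main (hc : ∀ c : K, c ≠ 0 → v (algebraMap K L c) = 1) (n : ℕ) (ι : Type) [Fintype ι]
    (hn : Fintype.card ι ≤ n) (A B : ι → K[X]) (hD : ∀ i, Dyn (A i) (B i)) (κ : ℕ → K)
    (hκ : ∀ j, κ j ≠ 0) (z : ι → ℕ → L)
    (hz : ∀ i, ∀ j, j ≤ n → aeval (z i j) (B i) ≠ 0 ∧
      z i (j + 1) = aeval (z i j) (A i) / aeval (z i j) (B i))
    (hp : ∀ j, 1 ≤ j → j ≤ n →
      ∏ i, aeval (z i j) (B i) = algebraMap K L (κ j) * ∏ i, aeval (z i 0) (B i))
    (i1 : ι) (h1 : v (z i1 0) ≤ 1) (h2 : v (aeval (z i1 0) (B i1)) < 1) : False := by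
  classical
  have hstep : ∀ i j, j ≤ n → 1 < v (z i j) → v (z i (j + 1)) = v (z i j) := by
    intro i j hj h
    rw [(hz i j hj).2]
    exact (vfn_big v hc (A i) (B i) (hD i) (z i j) h).2
  have hup : ∀ i j t, t ≤ j → j ≤ n + 1 → 1 < v (z i t) → v (z i j) = v (z i t) := by
    intro i j t htj hj ht
    induction j, htj using Nat.le_induction with
    | base => rfl
    | succ j htj ih =>
      have h := ih (by omega)
      rw [hstep i j (by omega) (by rw [h]; exact ht), h]
  have hclaim : ∀ j, j ≤ n → ∃ i, (∀ t, t ≤ j → v (z i t) ≤ 1) ∧ 1 < v (z i (j + 1)) := by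
    intro j hj
    rcases Nat.eq_zero_or_pos j with rfl | hjpos
    · refine ⟨i1, fun t ht => ?_, ?_⟩
      · rw [Nat.le_zero.mp ht]
        exact h1
      · rw [(hz i1 0 hj).2]
        exact (vfn_small v hc (A i1) (B i1) (hD i1) (z i1 0) h1 (hz i1 0 hj).1).2.2 h2
    · by_contra hno
      push Not at hno
      -- comparison of the factors
      have hge : ∀ i, v (z i 0) ≤ 1 → 1 ≤ v (aeval (z i j) (B i)) := by
        intro i hi
        by_cases hall : ∀ t, t ≤ j → v (z i t) ≤ 1
        · by_contra hlt
          have h3 := (vfn_small v hc (A i) (B i) (hD i) (z i j) (hall j le_rfl)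
            (hz i j hj).1).2.2 (not_le.mp hlt)
          rw [← (hz i j hj).2] at h3
          exact absurd h3 (not_lt.mpr (hno i hall))
        · push Not at hall
          obtain ⟨t, htj, ht⟩ := hall
          have h3 := hup i j t htj (by omega) ht
          have h4 : 1 < v (z i j) := by rw [h3]; exact ht
          rw [(vfn_big v hc (A i) (B i) (hD i) (z i j) h4).1]
          exact (one_lt_pow' h4 (by have := (hD i).pos; omega)).le
      have hle : ∀ i, v (aeval (z i 0) (B i)) ≤ v (aeval (z i j) (B i)) := by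
        intro i
        by_cases hi : v (z i 0) ≤ 1
        · exact (vfn_int v hc (B i) (z i 0) hi).trans (hge i hi)
        · have hi' := not_le.mp hi
          have h3 := hup i j 0 (Nat.zero_le _) (by omega) hi'
          rw [(vfn_big v hc (A i) (B i) (hD i) (z i 0) hi').1,
            (vfn_big v hc (A i) (B i) (hD i) (z i j) (by rw [h3]; exact hi')).1, h3]
      have hprod := congrArg v (hp j hjpos hj)
      rw [map_mul, hc _ (hκ j), one_mul, map_prod, map_prod,
        ← Finset.mul_prod_erase _ _ (Finset.mem_univ i1),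
        ← Finset.mul_prod_erase (Finset.univ) (fun i => v (aeval (z i 0) (B i)))
          (Finset.mem_univ i1)] at hprod
      have h3 : ∏ i ∈ Finset.univ.erase i1, v (aeval (z i 0) (B i)) ≤
          ∏ i ∈ Finset.univ.erase i1, v (aeval (z i j) (B i)) :=
        Finset.prod_le_prod' fun i _ => hle i
      have h4 : 0 < ∏ i ∈ Finset.univ.erase i1, v (aeval (z i j) (B i)) := by
        rw [zero_lt_iff]
        exact Finset.prod_ne_zero_iff.mpr fun i _ => (Valuation.ne_zero_iff v).mpr (hz i j hj).1
      have h5 : v (aeval (z i1 0) (B i1)) < v (aeval (z i1 j) (B i1)) := h2.trans_le (hge i1 h1)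
      have h6 : v (aeval (z i1 0) (B i1)) * ∏ i ∈ Finset.univ.erase i1, v (aeval (z i 0) (B i)) <
          v (aeval (z i1 j) (B i1)) * ∏ i ∈ Finset.univ.erase i1, v (aeval (z i j) (B i)) :=
        (mul_le_mul_right h3 _).trans_lt (mul_lt_mul_of_pos_right h5 h4)
      exact absurd hprod h6.ne'
  haveI : Nonempty ι := ⟨i1⟩
  choose! f hf1 hf2 using hclaim
  -- the exit times are pairwise different
  have hinj : Set.InjOn f (Set.Iic n) := by
    have key : ∀ a b, a ≤ n → b ≤ n → a < b → f a ≠ f b := by
      intro a b ha hb hab heq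
      have h3 := hf2 a ha
      have h4 := hf1 b hb (a + 1) hab
      rw [heq] at h3
      exact absurd h4 (not_le.mpr h3)
    intro a ha b hb heq
    rcases lt_trichotomy a b with h | h | h
    · exact absurd heq (key a b ha hb h)
    · exact h
    · exact absurd heq.symm (key b a hb ha h)
  have hcard : (Finset.range (n + 1)).card ≤ (Finset.univ : Finset ι).card :=
    Finset.card_le_card_of_injOn f (fun _ _ => Finset.mem_univ _) (fun a ha b hb h =>
      hinj (Nat.lt_succ_iff.mp (Finset.mem_range.mp (Finset.mem_coe.mp ha)))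
        (Nat.lt_succ_iff.mp (Finset.mem_range.mp (Finset.mem_coe.mp hb))) h)
  rw [Finset.card_range, Finset.card_univ] at hcard
  omega

/-- a valuation ring with `t ≡ β` -/
theorem vfn_ring (t : L) (ht : Transcendental K t) (β : K) :
    ∃ V : ValuationSubring L, (∀ c : K, c ≠ 0 → V.valuation (algebraMap K L c) = 1) ∧
      V.valuation (t - algebraMap K L β) < 1 := by
  let R : Subring L := (aeval t : K[X] →ₐ[K] L).range.toSubring
  have hmem : ∀ P : K[X], aeval t P ∈ R := fun P => ⟨P, rfl⟩
  have hx : aeval t (X - C β : K[X]) = t - algebraMap K L β := by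
    rw [map_sub, aeval_X, aeval_C]
  let x : R := ⟨t - algebraMap K L β, by rw [← hx]; exact hmem _⟩
  have hI : (Ideal.span {x} : Ideal R) ≠ ⊤ := by
    intro h
    rw [Ideal.span_singleton_eq_top] at h
    obtain ⟨⟨y, P, hP⟩, hy⟩ := isUnit_iff_exists_inv.mp h
    have h1 : (t - algebraMap K L β) * y = 1 := congrArg Subtype.val hy
    have h2 : aeval t P = y := hP
    rw [← h2, ← hx, ← map_mul] at h1
    have h3 : aeval t ((X - C β) * P - 1 : K[X]) = 0 := by
      rw [map_sub, h1, map_one, sub_self]
    have h4 : ((X - C β) * P - 1 : K[X]) = 0 := by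
      by_contra hne
      exact ht ⟨_, hne, h3⟩
    have h5 := congrArg (Polynomial.eval β) h4
    rw [eval_sub, eval_mul, eval_sub, eval_X, eval_C, sub_self, zero_mul, eval_one, eval_zero,
      zero_sub, neg_eq_zero] at h5
    exact one_ne_zero h5
  obtain ⟨V, hV1, hV2⟩ := Ideal.image_subset_nonunits_valuationSubring _ hI
  have hcV : ∀ c : K, algebraMap K L c ∈ V := fun c => hV1 (by
    have := hmem (C c)
    rwa [aeval_C] at this)
  refine ⟨V, fun c hc => ?_, ?_⟩
  · refine le_antisymm ((V.valuation_le_one_iff _).mpr (hcV c)) ?_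
    have h1 := (V.valuation_le_one_iff _).mpr (hcV c⁻¹)
    rw [map_inv₀, map_inv₀] at h1
    have h0 : V.valuation (algebraMap K L c) ≠ 0 := by
      rw [Valuation.ne_zero_iff]
      exact (_root_.map_ne_zero _).mpr hc
    exact (inv_le_one₀ (zero_lt_iff.mpr h0)).mp h1
  · exact V.mem_nonunits_iff.mp (hV2 ⟨x, Ideal.mem_span_singleton_self x, rfl⟩)

end

theorem st_VFN : ST_VFN := by
  intro K L _ _ _ _ n ι _ hn A B hD κ hκ z hz hp i1
  by_contra hnot
  have ht : Transcendental K (z i1 0) := by
    intro halg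
    exact hnot (minpoly.mem_range_of_degree_eq_one K (z i1 0)
      (IsAlgClosed.degree_eq_one_of_irreducible K (minpoly.irreducible halg.isIntegral)))
  obtain ⟨β, hβ⟩ := IsAlgClosed.exists_root (B i1) (by
    intro h
    have h1 := (hD i1).pos
    have h2 : (B i1).natDegree = 0 := natDegree_eq_of_degree_eq_some h
    omega)
  obtain ⟨V, hc, hlt⟩ := vfn_ring (z i1 0) ht β
  have h1 : V.valuation (z i1 0) ≤ 1 := by
    have h3 := V.valuation.map_add (z i1 0 - algebraMap K L β) (algebraMap K L β)
    rw [sub_add_cancel] at h3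
    refine h3.trans (max_le hlt.le ?_)
    by_cases h0 : β = 0
    · rw [h0, map_zero, map_zero]; exact zero_le
    · exact (hc β h0).le
  have h2 : V.valuation (aeval (z i1 0) (B i1)) < 1 := by
    obtain ⟨Q, hQ⟩ := dvd_iff_isRoot.mpr hβ
    rw [hQ, map_mul, map_mul, map_sub, aeval_X, aeval_C]
    exact (mul_le_of_le_one_right' (vfn_int V.valuation hc Q _ h1)).trans_lt hlt
  exact vfn_main V.valuation hc n ι hn A B hD κ hκ z hz hp i1 h1 h2

end Pool.Agent.Helper18.NF
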