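import Pool.Agent.Helper82.TP.HC
import Pool.Agent.Helper80.MX.Span

/-! The raw corner `d = 1`, `m = 3`: coordinates `t`, `y`, `R`, `z`; lines of direction `x`, `y' = x`, `R' = F`,
`z' = v`; labels `K s` of the windows `s`; box of weights `(1, w1, w)`. The base of the space is the label of the
window `0`. Normal form: if the velocity of `R` is `be + al x + th (y - t x)` with constants of zero entropy, `th` a
unit, then `R` can be replaced by the Heisenberg coordinate. -/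

set_option autoImplicit false

namespace Pool.Agent.Helper79.NF

open Finset Filter Topology Pool.Agent.Helper69.RK Pool.Agent.Helper31.EC

noncomputable section

open Sp QS Pool.Agent.Helper82.TP

/-- data of the raw corner -/
structure HD0 (S : Sp) where
  t : QS S
  x : QS S
  y : QS S
  R : QS S
  F : QS S
  z : QS S
  v : QS S
  β : ℝ → ℕ → Type
  K : ∀ s : ℝ, ∀ k, (S.F k).Ω → β s k

namespace HD0

variable {S : Sp} (H : HD0 S)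

/-- intercept of the base line -/
def a : QS S := H.y - H.t * H.x
/-- intercept of `R` -/
def cR : QS S := H.R - H.t * H.F
/-- intercept of `z` -/
def az : QS S := H.z - H.t * H.v

/-- information of the label -/
def κ (s : ℝ) : S.L := io (H.K s)
/-- the base point -/
def q : S.L := dg H.t 1 ⊔ dg H.y 1
/-- the point of the hyperplane -/
def M : S.L := dg H.t 1 ⊔ dg H.y 1 ⊔ dg H.R 1
/-- the point -/
def B : S.L := dg H.t 1 ⊔ dg H.y 1 ⊔ dg H.R 1 ⊔ dg H.z 1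
/-- the line -/
def L : S.L := dg H.x 1 ⊔ dg H.a 1 ⊔ (dg H.F 1 ⊔ dg H.cR 1) ⊔ (dg H.v 1 ⊔ dg H.az 1)
/-- isotropic digits of the point of the hyperplane -/
def iso (r : ℝ) : S.L := dg H.t r ⊔ dg H.y r ⊔ dg H.R r

end HD0

/-- the hypotheses on the raw corner -/
structure HC0 {S : Sp} (H : HD0 S) (w1 w ρ σ r1 : ℝ) (Sc : Set ℝ) (r0 rt ry z0 k0 k1 c : ℝ → QS S) : Prop where
  -- the labels
  bdd : ∀ s ∈ Sc, Bdd (H.K s)
  nest : ∀ s ∈ Sc, ∀ s' ∈ Sc, s ≤ s' → ∀ᶠ k in UF, ∀ ω ω', (S.F k).μ ω ≠ 0 → (S.F k).μ ω' ≠ 0 → (S.F k).Z ω ω' →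
    H.K s' k ω = H.K s' k ω' → H.K s k ω = H.K s k ω'
  pos : ∀ s ∈ Sc, 0 < s
  le : ∀ s ∈ Sc, s ≤ σ
  -- time, leaks, direction
  time : h (dg H.t 1) H.L = 1
  leakA : ∀ s ∈ Sc, I (H.κ s) (dg H.t 1) (H.L ⊔ dg H.t s) = 0
  T1 : ∀ s ∈ Sc, I (dg H.x 1) (H.κ s ⊔ H.B) ⊥ = 0
  rich : ∀ (T : Sp) (p : Pj T S) (E : ∀ k, (T.F k).Ω → Prop) (hE : 0 < ul (T.pr E)) (r : ℝ), 0 < r → r ≤ 1 →
    0 < h (restL E hE (p.map (dg H.x r))) (restL E hE (p.map H.B))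
  -- boxes
  tc : ∀ s ∈ Sc, ∃ t0 : QS S, Lit (H.K s) t0 ∧ H.t - t0 ∈ Id S s ∧ dg t0 1 ≤ dg H.t s
  isoM : ∀ s ∈ Sc, I (H.κ s) H.M (H.iso (w1 * s)) = 0
  lr0 : ∀ s ∈ Sc, Lit (H.K s) (r0 s)
  lrt : ∀ s ∈ Sc, Lit (H.K s) (rt s)
  lry : ∀ s ∈ Sc, Lit (H.K s) (ry s)
  frR : ∀ s ∈ Sc, H.R - (r0 s + rt s * H.t + ry s * H.y) ∈ Id S (w1 * s)
  lz0 : ∀ s ∈ Sc, Lit (H.K s) (z0 s)
  lk0 : ∀ s ∈ Sc, Lit (H.K s) (k0 s)
  lk1 : ∀ s ∈ Sc, Lit (H.K s) (k1 s)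
  lc : ∀ s ∈ Sc, Lit (H.K s) (c s)
  frZ : ∀ s ∈ Sc, H.z - (z0 s + k0 s * H.t + k1 s * H.y + c s * H.R) ∈ Id S (w * s)
  -- `z` is robustly unsaturated over `M`
  uns : UnS H.z H.M 0 ρ
  -- the slope of `z` is a function of `M` and the direction
  slope : dg H.v r1 ≤ H.M ⊔ dg H.x 1
  -- numbers
  hw : 2 < w
  hρ : 0 < ρ
  hσ : 0 < σ
  hwσ : w * σ ≤ 1
  hr1 : 0 < r1
  hr1' : r1 ≤ 1

/-! ### literal functions -/

/-- pullbacks of literal functions -/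
theorem lit_pull {T S : Sp} (p : Pj T S) {β : ℕ → Type} {V : ∀ k, (S.F k).Ω → β k} {f : QS S} (hf : Lit V f) :
    Lit (fun k ω => V k (p.π k ω)) (p.qs f) := by
  obtain ⟨g, rfl, h1⟩ := hf
  refine ⟨p.tr g, rfl, ?_⟩
  filter_upwards [h1] with k a ω ω' c d e v
  exact a _ _ (p.supp k ω c) (p.supp k ω' d) ((p.hZ k ω ω' c d).mp e) v

/-- the cells of finitely many functions -/
def cel {S : Sp} {N : ℕ} (c : Fin N → QS S) : ∀ k, (S.F k).Ω → (Fin N → Fin 1 → ℤ) :=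
  fun k ω i => (TR.vec (fun _ : Fin 1 => rep (c i))).cellv 1 k ω

theorem cel_bdd {S : Sp} {N : ℕ} (c : Fin N → QS S) : Bdd (α := fun _ => Fin N → Fin 1 → ℤ) (cel c) ∧
    io (α := fun _ => Fin N → Fin 1 → ℤ) (cel c) = Finset.univ.sup fun i => dg (c i) 1 := by
  have h1 := bdd_pi (fun i => (TR.vec (fun _ : Fin 1 => rep (c i))).cellv 1) (fun i =>
    (TR.vec (fun _ : Fin 1 => rep (c i))).bdd 1)
  refine ⟨h1.1, h1.2.trans ?_⟩
  congr 1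
  funext i
  conv_rhs => rw [← mk_rep (c i)]
  rw [dg_mk _ le_rfl]
  rfl

theorem cel_lit {S : Sp} {N : ℕ} (c : Fin N → QS S) (i : Fin N) : Lit (cel c) (c i) := by
  refine ⟨TR.cor ((TR.vec fun _ : Fin 1 => rep (c i)).fl 1 zero_le_one) 0, ?_, ?_⟩
  · have h1 := Helper80.MX.sub_qfl_mem (c i) zero_le_one le_rfl
    rw [mem_Id_one, sub_eq_zero] at h1
    exact h1.symm
  · refine Eventually.of_forall fun k ω ω' _ _ _ e => ?_
    have h1 := congrFun (congrFun e i) 0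
    show (⌊(TR.vec fun _ : Fin 1 => rep (c i)).v k ω 0 / S.dl 1 k⌋ : ℝ) * S.dl 1 k =
      (⌊(TR.vec fun _ : Fin 1 => rep (c i)).v k ω' 0 / S.dl 1 k⌋ : ℝ) * S.dl 1 k
    have h2 : ⌊(TR.vec fun _ : Fin 1 => rep (c i)).v k ω 0 / S.dl 1 k⌋ =
      ⌊(TR.vec fun _ : Fin 1 => rep (c i)).v k ω' 0 / S.dl 1 k⌋ := h1
    rw [h2]

end

end Pool.Agent.Helper79.NF
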