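import Pool.Agent.Helper79.NF.Grd

/-! Row B_GRD for the velocity of `z` (`w = w1`). -/

set_option autoImplicit false

namespace Pool.Agent.Helper79.NF

open Finset Filter Topology Pool.Agent.Helper69.RK Pool.Agent.Helper31.EC

noncomputable section

open Sp QS Pool.Agent.Helper82.TP Pool.Agent.Helper31.NSB Pool.Agent.Helper79.LB Pool.Agent.Helper79.LH

variable {S : Sp} {H : RD S} {f : FR S} {w1 w ρ σ u r1 : ℝ} {Sc : Set ℝ}

/-- a function of the line which is known to the base point and the direction is a function of the base line -/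
theorem base_line_le (hc : CC H f w1 w ρ Sc) {g : QS S} {r : ℝ} (hr : r ≤ 1) (hg : dg g 1 ≤ H.L)
    (hq : dg g r ≤ H.q ⊔ dg H.x 1) : dg g r ≤ dg H.a 1 ⊔ dg H.x 1 := by
  have hq' : H.q ≤ dg H.t 1 ⊔ (dg H.a 1 ⊔ dg H.x 1) := by
    have mt : H.t ∈ Kn S 1 le_rfl (dg H.t 1 ⊔ (dg H.a 1 ⊔ dg H.x 1)) := mem_Kn.mpr le_sup_left
    have ma : H.a ∈ Kn S 1 le_rfl (dg H.t 1 ⊔ (dg H.a 1 ⊔ dg H.x 1)) := mem_Kn.mpr (le_sup_of_le_right le_sup_left)
    have mx : H.x ∈ Kn S 1 le_rfl (dg H.t 1 ⊔ (dg H.a 1 ⊔ dg H.x 1)) := mem_Kn.mpr (le_sup_of_le_right le_sup_right)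
    have my : H.y ∈ Kn S 1 le_rfl (dg H.t 1 ⊔ (dg H.a 1 ⊔ dg H.x 1)) := by
      have e1 : H.y = H.a + H.t * H.x := by
        unfold HD0.a
        ring
      rw [e1]
      exact add_mem ma (mul_mem mt mx)
    exact sup_le mt my
  have h1 : dg g r ≤ dg H.t 1 ⊔ (dg H.a 1 ⊔ dg H.x 1) := hq.trans (sup_le hq' (le_sup_of_le_right le_sup_right))
  apply le_of_I_zero h1
  rw [I_eq']
  have hL : dg g r ⊔ (dg H.a 1 ⊔ dg H.x 1) ≤ H.L := by
    refine sup_le ((dg_mono _ hr).trans hg) (sup_le ?_ ?_)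
    · exact le_sup_right.trans (le_sup_left.trans le_sup_left)
    · exact le_sup_left.trans (le_sup_left.trans le_sup_left)
  have h2 := h_anti (A := dg H.t 1) hL
  rw [hc.time] at h2
  have h3 := h_dg_le_one H.t (dg H.a 1 ⊔ dg H.x 1)
  have h4 := h_anti (A := dg H.t 1) (le_sup_right : dg H.a 1 ⊔ dg H.x 1 ≤ dg g r ⊔ (dg H.a 1 ⊔ dg H.x 1))
  linarith [h_dg_le_one H.t (dg g r ⊔ (dg H.a 1 ⊔ dg H.x 1))]

/-- the slopes of `z` over `(t, y)` -/
def zt (f : FR S) (s : ℝ) : QS S := f.k0 s + f.c s * f.rt s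
def zy (f : FR S) (s : ℝ) : QS S := f.k1 s + f.c s * f.ry s

theorem HT.r1_le (ht : HT H f w1 w ρ σ u r1 Sc) : r1 ≤ 1 := ht.hr.trans (HT.u_le ht)

/-- the velocity of `z` over `(t, y)` in the first window of depth `σ`, if `w σ ≤ 1` -/
theorem HT.velv (ht : HT H f w1 w ρ σ u r1 Sc) (hw : w = w1) : H.v - (zt f σ + zy f σ * H.x) ∈ Id S r1 := by
  have hs := ht.hσS
  have h1 := velZ ht.cc hs (HT.σ_le ht) (by rw [hw]; exact ht.hw1σ)
  have h2 := HT.vel ht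
  have h3 : H.v - (f.k0 σ + f.k1 σ * H.x + f.c σ * H.F) ∈ Id S r1 := by
    refine Id_anti ?_ h1
    have h4 := ht.hu1
    have h5 := ht.hr
    rw [hw]
    linarith
  have h4 : f.c σ * (H.F - (f.rt σ + f.ry σ * H.x)) ∈ Id S r1 := (Id S r1).mul_mem_left _ (Id_anti ht.hr h2)
  have h5 := (Id S r1).add_mem h3 h4
  have e1 : H.v - (zt f σ + zy f σ * H.x) = H.v - (f.k0 σ + f.k1 σ * H.x + f.c σ * H.F) +
      f.c σ * (H.F - (f.rt σ + f.ry σ * H.x)) := by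
    unfold zt zy
    ring
  rw [e1]
  exact h5

theorem HT.grdv (ht : HT H f w1 w ρ σ u r1 Sc) (hw : w = w1) : dg (zt f σ) r1 ≤ H.q ∧ dg (zy f σ) r1 ≤ H.q := by
  have hσ := ht.hσS
  have hc := ht.cc
  obtain ⟨l0, l1, l2⟩ := hc.lr σ hσ
  obtain ⟨m0, m1, m2, m3⟩ := hc.lz σ hσ
  have hb := hc.bdd σ hσ
  have tB : dg H.t 1 ≤ H.κ σ ⊔ H.B := le_sup_of_le_right (le_sup_left.trans (le_sup_left.trans le_sup_left))
  have yB : dg H.y 1 ≤ H.κ σ ⊔ H.B := le_sup_of_le_right (le_sup_right.trans (le_sup_left.trans le_sup_left))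
  refine coef_q (A := H.κ σ ⊔ H.B) (HT.r1_le ht) tB yB (((m1.add (m3.mul l1)).dg_le hb le_rfl).trans le_sup_left)
    (((m2.add (m3.mul l2)).dg_le hb le_rfl).trans le_sup_left) (HT.velv ht hw) ?_ (hc.T1 σ hσ) (cc_rich hc hσ)
  refine (ht.slope1 hw).trans (sup_le (sup_le ?_ ?_) ?_)
  · exact (dg_mono _ (HT.u_le ht)).trans (le_sup_left.trans le_sup_left)
  · exact (dg_mono _ (HT.u_le ht)).trans (le_sup_right.trans le_sup_left)
  · exact (dg_mono _ (HT.u_le ht)).trans le_sup_right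

theorem HT.v_le (ht : HT H f w1 w ρ σ u r1 Sc) (hw : w = w1) : dg H.v r1 ≤ dg H.a 1 ⊔ dg H.x 1 := by
  refine base_line_le ht.cc (HT.r1_le ht) (le_sup_left.trans le_sup_right) ?_
  refine (ht.slope1 hw).trans (sup_le (sup_le ?_ ?_) ?_)
  · exact (dg_mono _ (HT.u_le ht)).trans (le_sup_left.trans le_sup_left)
  · exact (dg_mono _ (HT.u_le ht)).trans (le_sup_right.trans le_sup_left)
  · exact (dg_mono _ (HT.u_le ht)).trans le_sup_right

end

end Pool.Agent.Helper79.NF
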