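import Pool.Agent.Helper79.NF.Nf
import Pool.Agent.Helper82.TP.Sheet

/-! The thin parallelogram for the raw corner in the form of a sheet label. -/

set_option autoImplicit false

namespace Pool.Agent.Helper79.NF

open Finset Filter Topology Pool.Agent.Helper69.RK Pool.Agent.Helper31.EC

noncomputable section

open Sp QS Pool.Agent.Helper82.TP

/-! ### substitution of linear forms -/

theorem subst_deg {σ : Type} {R : Type*} [CommRing R] {g : σ → MvPolynomial σ R} (hg : ∀ i, (g i).totalDegree ≤ 1)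
    (f : MvPolynomial σ R) : (MvPolynomial.bind₁ g f).totalDegree ≤ f.totalDegree := by
  classical
  conv_lhs => rw [f.as_sum, map_sum]
  refine (MvPolynomial.totalDegree_finsetSum _ _).trans (Finset.sup_le fun m hm => ?_)
  rw [MvPolynomial.bind₁_monomial]
  refine (MvPolynomial.totalDegree_mul _ _).trans ?_
  rw [MvPolynomial.totalDegree_C, zero_add]
  refine (MvPolynomial.totalDegree_finsetProd _ _).trans ?_
  refine le_trans ?_ (MvPolynomial.le_totalDegree hm)
  refine Finset.sum_le_sum fun i _ => (MvPolynomial.totalDegree_pow _ _).trans ?_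
  calc m i * _ ≤ m i * 1 := Nat.mul_le_mul_left _ (hg i)
    _ = m i := mul_one _

theorem subst_mem {W : Sp} {σ : Type} {V : W.L} {g : σ → MvPolynomial σ (QS W)} (hg : ∀ i, g i ∈ PK V)
    {f : MvPolynomial σ (QS W)} (hf : f ∈ PK V) : MvPolynomial.bind₁ g f ∈ PK V := by
  classical
  rw [f.as_sum, map_sum]
  refine (PK V).sum_mem fun m _ => ?_
  rw [MvPolynomial.bind₁_monomial]
  exact (PK V).mul_mem (C_mem (hf m)) ((PK V).prod_mem fun i _ => (PK V).pow_mem (hg i) _)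

theorem subst_eval {σ : Type} {R : Type*} [CommRing R] (g : σ → MvPolynomial σ R) (f : MvPolynomial σ R) (x : σ → R) :
    MvPolynomial.eval x (MvPolynomial.bind₁ g f) = MvPolynomial.eval (fun i => MvPolynomial.eval x (g i)) f :=
  MvPolynomial.eval₂Hom_bind₁ (RingHom.id R) x g f

/-- a sheet in the coordinates of the Heisenberg group gives a sheet in the raw coordinates -/
theorem raw_sheet {S T W : Sp} {H : HD0 S} (p : Pj T S) (q : Pj W T) {th ti al be : QS T}
    (hti : dg ti 1 = ⊥) (hal : dg al 1 = ⊥) (hbe : dg be 1 = ⊥) {V : W.L} {f : MvPolynomial (Fin 3) (QS W)}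
    (hf : f ∈ PK V) (hd : f.totalDegree ≤ 1) {v : ℝ}
    (hz : q.qs (nfd H p th ti al be).z - MvPolynomial.eval (fun i => q.qs (![(nfd H p th ti al be).t,
      (nfd H p th ti al be).y, (nfd H p th ti al be).R] i)) f ∈ Id W v) :
    ∃ g : MvPolynomial (Fin 3) (QS W), g ∈ PK V ∧ g.totalDegree ≤ 1 ∧
      (q.comp p).qs H.z - MvPolynomial.eval (fun i => (q.comp p).qs (![H.t, H.y, H.R] i)) g ∈ Id W v := by
  have hk : ∀ g : QS T, dg g 1 = ⊥ → dg (q.qs g) 1 ≤ V := fun g hg => by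
    rw [q.qs_dg, hg, q.map_bot]
    exact bot_le
  have dC : ∀ c : QS W, (MvPolynomial.C c : MvPolynomial (Fin 3) (QS W)).totalDegree ≤ 0 := fun c => by
    rw [MvPolynomial.totalDegree_C]
  have dX : ∀ i : Fin 3, (MvPolynomial.X i : MvPolynomial (Fin 3) (QS W)).totalDegree ≤ 1 := by
    intro i
    have h1 : (MvPolynomial.X i : MvPolynomial (Fin 3) (QS W)) = MvPolynomial.monomial (Finsupp.single i 1) 1 := rfl
    rw [h1]
    refine (MvPolynomial.totalDegree_monomial_le _ _).trans ?_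
    rw [Finsupp.sum_single_index rfl, id]
  have dM : ∀ (c : QS W) {g : MvPolynomial (Fin 3) (QS W)}, g.totalDegree ≤ 1 →
      (MvPolynomial.C c * g).totalDegree ≤ 1 := fun c g hg => by
    refine (MvPolynomial.totalDegree_mul _ _).trans ?_
    have := dC c
    omega
  refine ⟨MvPolynomial.bind₁ ![MvPolynomial.X 0, MvPolynomial.X 1, MvPolynomial.C (q.qs ti) * (MvPolynomial.X 2 -
    MvPolynomial.C (q.qs be) * MvPolynomial.X 0 - MvPolynomial.C (q.qs al) * MvPolynomial.X 1)] f, ?_, ?_, ?_⟩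
  · apply subst_mem _ hf
    intro i
    fin_cases i
    · exact X_mem _ _
    · exact X_mem _ _
    · exact (PK V).mul_mem (C_mem (hk _ hti)) ((PK V).sub_mem ((PK V).sub_mem (X_mem _ _)
        ((PK V).mul_mem (C_mem (hk _ hbe)) (X_mem _ _))) ((PK V).mul_mem (C_mem (hk _ hal)) (X_mem _ _)))
  · refine (subst_deg ?_ f).trans hd
    intro i
    fin_cases i
    · exact dX 0
    · exact dX 1
    · refine dM _ ?_
      exact (MvPolynomial.totalDegree_sub _ _).trans (max_le ((MvPolynomial.totalDegree_sub _ _).trans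
        (max_le (dX 2) (dM _ (dX 0)))) (dM _ (dX 1)))
  · rw [subst_eval, Pj.comp_qs]
    have e1 : (fun i => MvPolynomial.eval (fun i => (q.comp p).qs (![H.t, H.y, H.R] i))
        ((![MvPolynomial.X 0, MvPolynomial.X 1, MvPolynomial.C (q.qs ti) * (MvPolynomial.X 2 -
        MvPolynomial.C (q.qs be) * MvPolynomial.X 0 - MvPolynomial.C (q.qs al) * MvPolynomial.X 1)] :
          Fin 3 → MvPolynomial (Fin 3) (QS W)) i)) = fun i => q.qs (![(nfd H p th ti al be).t,
        (nfd H p th ti al be).y, (nfd H p th ti al be).R] i) := by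
      funext i
      fin_cases i
      · show MvPolynomial.eval _ (MvPolynomial.X 0) = q.qs (p.qs H.t)
        rw [MvPolynomial.eval_X, Pj.comp_qs]
        rfl
      · show MvPolynomial.eval _ (MvPolynomial.X 1) = q.qs (p.qs H.y)
        rw [MvPolynomial.eval_X, Pj.comp_qs]
        rfl
      · show MvPolynomial.eval _ (MvPolynomial.C (q.qs ti) * (MvPolynomial.X 2 -
          MvPolynomial.C (q.qs be) * MvPolynomial.X 0 - MvPolynomial.C (q.qs al) * MvPolynomial.X 1)) =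
          q.qs (ti * (p.qs H.R - be * p.qs H.t - al * p.qs H.y))
        rw [map_mul, map_sub, map_sub, map_mul, map_mul, MvPolynomial.eval_C, MvPolynomial.eval_C,
          MvPolynomial.eval_C, MvPolynomial.eval_X, MvPolynomial.eval_X, MvPolynomial.eval_X, Pj.comp_qs, Pj.comp_qs,
          Pj.comp_qs, map_mul, map_sub, map_sub, map_mul, map_mul]
        rfl
    rw [e1]
    exact hz

/-- THE THIN PARALLELOGRAM for the raw corner -/
theorem raw_goal {S T : Sp} {H : HD0 S} {w ρ σ r1 : ℝ} {Sc : Set ℝ} {r0 rt ry z0 k0 k1 c : ℝ → QS S}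
    (hc : HC0 H 2 w ρ σ r1 Sc r0 rt ry z0 k0 k1 c) (p : Pj T S) {th ti al be : QS T} (hth : dg th 1 = ⊥)
    (hti : dg ti 1 = ⊥) (hal : dg al 1 = ⊥) (hbe : dg be 1 = ⊥) (hu : ti * th = 1)
    (hF : p.qs H.F = be + al * p.qs H.x + th * p.qs H.a) {η s s2 v : ℝ} (hη : 0 < η) (hmm : Mesh Sc σ η)
    (hS : Scl w σ r1 Sc η s s2 v) :
    dg (z0 s2) v ⊔ dg (k0 s2) v ⊔ dg (k1 s2) v ⊔ dg (c s2) v ≤ H.B ∧
    dg (z0 s2) v ⊔ dg (k0 s2) v ⊔ dg (k1 s2) v ⊔ dg (c s2) v ≤ H.L := by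
  have hn := nf hc p hth hti hal hbe hu hF
  obtain ⟨h1, h2⟩ := hn.goal hη hmm hS
  obtain ⟨-, hs2, -, -, -, -, hv2, -, -⟩ := hS
  have hv1 : v ≤ 1 := hv2.trans (hn.s_lt hs2).le
  rw [nf_B hth hti hal hbe hu] at h1
  rw [nf_L hth hti hal hbe hu hF] at h2
  exact ⟨nf_back hti hal hbe hu hv1 h1, nf_back hti hal hbe hu hv1 h2⟩

/-- THE THIN PARALLELOGRAM for the raw corner, sheet form -/
theorem raw_sheet_label {S T : Sp} {H : HD0 S} {w ρ σ r1 : ℝ} {Sc : Set ℝ} {r0 rt ry z0 k0 k1 c : ℝ → QS S}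
    (hc : HC0 H 2 w ρ σ r1 Sc r0 rt ry z0 k0 k1 c) (p : Pj T S) {th ti al be : QS T} (hth : dg th 1 = ⊥)
    (hti : dg ti 1 = ⊥) (hal : dg al 1 = ⊥) (hbe : dg be 1 = ⊥) (hu : ti * th = 1)
    (hF : p.qs H.F = be + al * p.qs H.x + th * p.qs H.a) {η s s2 v : ℝ} (hη : 0 < η) (hmm : Mesh Sc σ η)
    (hS : Scl w σ r1 Sc η s s2 v) :
    ∃ (W : Sp) (q : Pj W S) (V : W.L) (f : MvPolynomial (Fin 3) (QS W)), f ∈ PK V ∧ f.totalDegree ≤ 1 ∧
      h V (q.map H.L) = 0 ∧ I V (q.map H.M) ⊥ = 0 ∧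
      q.qs H.z - MvPolynomial.eval (fun i => q.qs (![H.t, H.y, H.R] i)) f ∈ Id W v := by
  obtain ⟨W, q, V, f, h1, h2, h3, h4, h5⟩ := (nf hc p hth hti hal hbe hu hF).sheet_label hη hmm hS
  obtain ⟨g, g1, g2, g3⟩ := raw_sheet p q hti hal hbe h1 h2 h5
  refine ⟨W, q.comp p, V, g, g1, g2, ?_, ?_, g3⟩
  · rw [Pj.comp_map, ← nf_L hth hti hal hbe hu hF]
    exact h3
  · rw [Pj.comp_map, ← nf_M hth hti hal hbe hu]
    exact h4

end

end Pool.Agent.Helper79.NF
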