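import Pool.Agent.Helper79.NF.Vel
import Pool.Agent.Helper79.LH.Cop

/-! Row B_GRD (N1): the coefficients of the velocity of `R` are functions of the base point. -/

set_option autoImplicit false

namespace Pool.Agent.Helper79.NF

open Finset Filter Topology Pool.Agent.Helper69.RK Pool.Agent.Helper31.EC

noncomputable section

open Sp QS Pool.Agent.Helper82.TP Pool.Agent.Helper31.NSB Pool.Agent.Helper79.LB Pool.Agent.Helper79.LH

/-- an affine function of an independent nowhere known variable: if the values are known to `(t, y)` and the variable,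
the coefficients are known to `(t, y)` -/
theorem coef_q {S : Sp} {F x t y k0 k1 : QS S} {A : S.L} {u : ℝ} (hu : u ≤ 1) (ht : dg t 1 ≤ A) (hy : dg y 1 ≤ A)
    (h0 : dg k0 1 ≤ A) (h1 : dg k1 1 ≤ A) (hv : F - (k0 + k1 * x) ∈ Id S u)
    (hF : dg F u ≤ dg t 1 ⊔ dg y 1 ⊔ dg x 1) (hT : I (dg x 1) A ⊥ = 0)
    (hr : ∀ (W : Sp) (p : Pj W S) (E : ∀ k, (W.F k).Ω → Prop) (hE : 0 < ul (W.pr E)) (r : ℝ), 0 < r → r ≤ 1 →
      0 < h (restL E hE (p.map (dg x r))) (restL E hE (p.map A))) :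
    dg k0 u ≤ dg t 1 ⊔ dg y 1 ∧ dg k1 u ≤ dg t 1 ⊔ dg y 1 := by
  obtain ⟨f, hf⟩ : ∃ f : Fin 4 → QS S, f = ![t, y, k0, k1] := ⟨_, rfl⟩
  have f0 : f 0 = t := by rw [hf]; rfl
  have f1 : f 1 = y := by rw [hf]; rfl
  have f2 : f 2 = k0 := by rw [hf]; rfl
  have f3 : f 3 = k1 := by rw [hf]; rfl
  have hfA : vd f 1 ≤ A := by
    rw [vd_le]
    intro i
    fin_cases i
    · show dg (f 0) 1 ≤ A
      rw [f0]; exact ht
    · show dg (f 1) 1 ≤ A
      rw [f1]; exact hy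
    · show dg (f 2) 1 ≤ A
      rw [f2]; exact h0
    · show dg (f 3) 1 ≤ A
      rw [f3]; exact h1
  obtain ⟨C⟩ := exists_CQ f 1
  obtain ⟨Q, hQ⟩ : ∃ Q, Q = (C.p 0).map (dg t 1 ⊔ dg y 1) := ⟨_, rfl⟩
  have ct : (C.p 1).map (dg t 1) = (C.p 0).map (dg t 1) := by
    rw [← Pj.qs_dg, ← Pj.qs_dg, ← f0, C.com 1 0 0]
  have cy : (C.p 1).map (dg y 1) = (C.p 0).map (dg y 1) := by
    rw [← Pj.qs_dg, ← Pj.qs_dg, ← f1, C.com 1 0 1]
  have c0 : (C.p 1).qs k0 = (C.p 0).qs k0 := by rw [← f2, C.com 1 0 2]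
  have c1 : (C.p 1).qs k1 = (C.p 0).qs k1 := by rw [← f3, C.com 1 0 3]
  -- independence of the two directions and the common information
  have i0 : I ((C.p 0).map (dg x 1)) C.v ⊥ = 0 := by
    rw [← C.p_v 0, ← (C.p 0).map_bot, Pj.I_map]
    exact I_zero_mono hT le_sup_left (hfA.trans le_sup_left)
  have i1 : I ((C.p 1).map (dg x 1)) C.v ⊥ = 0 := by
    rw [← C.p_v 1, ← (C.p 1).map_bot, Pj.I_map]
    exact I_zero_mono hT le_sup_left (hfA.trans le_sup_left)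
  have i2 : I ((C.p 1).map (dg x 1)) ((C.p 0).map (dg x 1)) C.v = 0 := C.I_two (by decide) _ _
  have i3 : I ((C.p 1).map (dg x 1)) (C.v ⊔ (C.p 0).map (dg x 1)) ⊥ = 0 := by
    rw [I_chain_right, i1, zero_add, sup_bot_eq]
    exact i2
  have i4 : I ((C.p 0).map (dg x 1) ⊔ (C.p 1).map (dg x 1)) C.v ⊥ = 0 := by
    rw [I_chain, i0, zero_add, sup_bot_eq]
    rw [sup_comm] at i3
    have h5 := (I_decomp i3).2
    rwa [sup_bot_eq] at h5
  have QV : Q ≤ C.v := by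
    rw [hQ, ← C.p_v 0]
    refine (C.p 0).map_mono (sup_le ?_ ?_)
    · rw [← f0]
      exact dg_le_vd f 1 0
    · rw [← f1]
      exact dg_le_vd f 1 1
  have kV : ∀ {g : QS S} {i : Fin 4}, f i = g → dg ((C.p 0).qs g) u ≤ C.v := fun {g i} hg => by
    rw [Pj.qs_dg, ← C.p_v 0]
    refine (C.p 0).map_mono ((dg_mono g hu).trans ?_)
    rw [← hg]
    exact dg_le_vd f 1 i
  have fin : ∀ {g : QS S} {i : Fin 4}, f i = g →
      dg ((C.p 0).qs g) u ≤ (C.p 0).map (dg x 1) ⊔ (C.p 1).map (dg x 1) ⊔ Q → dg g u ≤ dg t 1 ⊔ dg y 1 := by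
    intro g i hg hk
    have h5 : I (dg ((C.p 0).qs g) u) ((C.p 0).map (dg x 1) ⊔ (C.p 1).map (dg x 1)) Q = 0 := by
      have h6 : I C.v ((C.p 0).map (dg x 1) ⊔ (C.p 1).map (dg x 1)) ⊥ = 0 := by
        rw [I_comm]
        exact i4
      have h7 : I (Q ⊔ C.v) ((C.p 0).map (dg x 1) ⊔ (C.p 1).map (dg x 1)) ⊥ = 0 := by
        rw [sup_eq_right.mpr QV]
        exact h6
      rw [I_comm] at h7
      have h8 := (I_decomp h7).2
      rw [sup_bot_eq, I_comm] at h8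
      exact I_zero_mono h8 ((kV hg).trans le_sup_left) le_sup_left
    have h6 := le_of_I_zero hk h5
    rw [Pj.qs_dg, hQ, Pj.map_le] at h6
    exact h6
  -- the difference of the directions is a unit
  have hU : IsUnit ((C.p 0).qs x - (C.p 1).qs x) := by
    apply sep_cop C (by decide)
    intro W p E hE r hr0 hr1
    exact (hr W p E hE r hr0 hr1).trans_le (h_anti (restL_mono E hE (p.map_mono hfA)))
  obtain ⟨iv, hiv⟩ := hU.exists_left_inv
  have X0 : ∀ i, (C.p i).qs x ∈ Kn C.W u hu ((C.p 0).map (dg x 1) ⊔ (C.p 1).map (dg x 1) ⊔ Q) := by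
    intro i
    rw [mem_Kn, Pj.qs_dg]
    refine ((C.p i).map_mono (dg_mono x hu)).trans ?_
    fin_cases i
    · exact le_sup_of_le_left le_sup_left
    · exact le_sup_of_le_left le_sup_right
  have F0 : ∀ i, (C.p i).qs F ∈ Kn C.W u hu ((C.p 0).map (dg x 1) ⊔ (C.p 1).map (dg x 1) ⊔ Q) := by
    intro i
    rw [mem_Kn, Pj.qs_dg]
    refine ((C.p i).map_mono hF).trans ?_
    rw [Pj.map_sup, Pj.map_sup]
    have e1 : (C.p i).map (dg t 1) ⊔ (C.p i).map (dg y 1) = Q := by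
      rw [hQ, Pj.map_sup]
      fin_cases i
      · rfl
      · exact congrArg₂ _ ct cy
    rw [e1]
    refine sup_le le_sup_right ?_
    fin_cases i
    · exact le_sup_of_le_left le_sup_left
    · exact le_sup_of_le_left le_sup_right
  have hvi : ∀ i, (C.p i).qs F - ((C.p 0).qs k0 + (C.p 0).qs k1 * (C.p i).qs x) ∈ Id C.W u := by
    intro i
    have h5 := ((C.p i).qs_mem_Id hu).mpr hv
    rw [map_sub, map_add, map_mul] at h5
    have e0 : (C.p i).qs k0 = (C.p 0).qs k0 := by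
      fin_cases i
      · rfl
      · exact c0
    have e1 : (C.p i).qs k1 = (C.p 0).qs k1 := by
      fin_cases i
      · rfl
      · exact c1
    rw [e0, e1] at h5
    exact h5
  have ivm : iv ∈ Kn C.W u hu ((C.p 0).map (dg x 1) ⊔ (C.p 1).map (dg x 1) ⊔ Q) :=
    mem_Kn.mpr ((dg_inv_le hiv hu).trans (mem_Kn.mp (sub_mem (X0 0) (X0 1))))
  have K1 : (C.p 0).qs k1 ∈ Kn C.W u hu ((C.p 0).map (dg x 1) ⊔ (C.p 1).map (dg x 1) ⊔ Q) := by
    have e1 : iv * ((C.p 0).qs F - (C.p 1).qs F) - (C.p 0).qs k1 ∈ Id C.W u := by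
      have h5 := (Id C.W u).mul_mem_left iv ((Id C.W u).sub_mem (hvi 0) (hvi 1))
      have e2 : iv * ((C.p 0).qs F - (C.p 1).qs F) - (C.p 0).qs k1 =
          iv * ((C.p 0).qs F - ((C.p 0).qs k0 + (C.p 0).qs k1 * (C.p 0).qs x) -
            ((C.p 1).qs F - ((C.p 0).qs k0 + (C.p 0).qs k1 * (C.p 1).qs x))) := by
        linear_combination (C.p 0).qs k1 * hiv
      rw [e2]
      exact h5
    rw [mem_Kn, ← dg_eq_of_sub_mem e1 le_rfl hu]
    exact mem_Kn.mp (mul_mem ivm (sub_mem (F0 0) (F0 1)))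
  have K0 : (C.p 0).qs k0 ∈ Kn C.W u hu ((C.p 0).map (dg x 1) ⊔ (C.p 1).map (dg x 1) ⊔ Q) := by
    have e1 : ((C.p 0).qs F - (C.p 0).qs k1 * (C.p 0).qs x) - (C.p 0).qs k0 ∈ Id C.W u := by
      have e2 : ((C.p 0).qs F - (C.p 0).qs k1 * (C.p 0).qs x) - (C.p 0).qs k0 =
          (C.p 0).qs F - ((C.p 0).qs k0 + (C.p 0).qs k1 * (C.p 0).qs x) := by ring
      rw [e2]
      exact hvi 0
    rw [mem_Kn, ← dg_eq_of_sub_mem e1 le_rfl hu]
    exact mem_Kn.mp (sub_mem (F0 0) (mul_mem K1 (X0 0)))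
  exact ⟨fin f2 (mem_Kn.mp K0), fin f3 (mem_Kn.mp K1)⟩

section ht

variable {S : Sp} {H : RD S} {f : FR S} {w1 w ρ σ u r1 : ℝ} {Sc : Set ℝ}

/-- the direction is nowhere known over the point and the label -/
theorem cc_rich (hc : CC H f w1 w ρ Sc) {s : ℝ} (hs : s ∈ Sc) (W : Sp) (p : Pj W S) (E : ∀ k, (W.F k).Ω → Prop)
    (hE : 0 < ul (W.pr E)) (r : ℝ) (hr0 : 0 < r) (hr1 : r ≤ 1) :
    0 < h (restL E hE (p.map (dg H.x r))) (restL E hE (p.map (H.κ s ⊔ H.B))) := by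
  have h1 : I (p.map (dg H.x 1)) (p.map (H.κ s ⊔ H.B)) ⊥ = 0 := by
    rw [← p.map_bot, p.I_map]
    exact hc.T1 s hs
  have h2 := I_rest_zero E hE h1
  rw [restL_bot] at h2
  have h3 := I_zero_mono h2 (A := restL E hE (p.map (dg H.x r)))
    ((restL_mono E hE (p.map_mono (dg_mono _ hr1))).trans le_sup_left) (le_sup_left)
  rw [I_zero_iff_h, sup_bot_eq] at h3
  rw [h3]
  obtain ⟨g, hg, hr⟩ := hc.rich
  exact (mul_pos hg hr0).trans_le ((hr W p E hE r hr0.le hr1).trans (h_anti bot_le))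

/-- the precision of the slopes -/
theorem HT.u_le (ht : HT H f w1 w ρ σ u r1 Sc) : u ≤ 1 := by
  have h1 := ht.hu1
  have h2 := ht.hw1σ
  have h3 := ht.hσ
  nlinarith

theorem HT.σ_le (ht : HT H f w1 w ρ σ u r1 Sc) : σ ≤ 1 := by
  have h2 := ht.hw1σ
  have h3 := ht.hσ
  have h4 := ht.hw1
  nlinarith

/-- the velocity of `R` -/
theorem HT.vel (ht : HT H f w1 w ρ σ u r1 Sc) : H.F - (f.rt σ + f.ry σ * H.x) ∈ Id S u := by
  refine Id_anti ?_ (velR ht.cc ht.hσS (HT.σ_le ht) ht.hw1σ)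
  have h1 := ht.hu1
  linarith

/-- ROW B_GRD: the slopes are functions of the base point -/
theorem HT.grd (ht : HT H f w1 w ρ σ u r1 Sc) : dg (f.rt σ) u ≤ H.q ∧ dg (f.ry σ) u ≤ H.q := by
  have hσ := ht.hσS
  have hc := ht.cc
  obtain ⟨l0, l1, l2⟩ := hc.lr σ hσ
  have hb := hc.bdd σ hσ
  have tB : dg H.t 1 ≤ H.κ σ ⊔ H.B := le_sup_of_le_right (le_sup_left.trans (le_sup_left.trans le_sup_left))
  have yB : dg H.y 1 ≤ H.κ σ ⊔ H.B := le_sup_of_le_right (le_sup_right.trans (le_sup_left.trans le_sup_left))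
  exact coef_q (A := H.κ σ ⊔ H.B) (HT.u_le ht) tB yB ((l1.dg_le hb le_rfl).trans le_sup_left)
    ((l2.dg_le hb le_rfl).trans le_sup_left) (HT.vel ht) ht.lfq (hc.T1 σ hσ) (cc_rich hc hσ)

/-- the velocity of `R` is a function of the base line -/
theorem HT.F_le (ht : HT H f w1 w ρ σ u r1 Sc) : dg H.F u ≤ dg H.a 1 ⊔ dg H.x 1 := by
  have hc := ht.cc
  have hu := HT.u_le ht
  have hq : H.q ≤ dg H.t 1 ⊔ (dg H.a 1 ⊔ dg H.x 1) := by
    have mt : H.t ∈ Kn S 1 le_rfl (dg H.t 1 ⊔ (dg H.a 1 ⊔ dg H.x 1)) := mem_Kn.mpr le_sup_left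
    have ma : H.a ∈ Kn S 1 le_rfl (dg H.t 1 ⊔ (dg H.a 1 ⊔ dg H.x 1)) := mem_Kn.mpr (le_sup_of_le_right le_sup_left)
    have mx : H.x ∈ Kn S 1 le_rfl (dg H.t 1 ⊔ (dg H.a 1 ⊔ dg H.x 1)) := mem_Kn.mpr (le_sup_of_le_right le_sup_right)
    have my : H.y ∈ Kn S 1 le_rfl (dg H.t 1 ⊔ (dg H.a 1 ⊔ dg H.x 1)) := by
      have e1 : H.y = H.a + H.t * H.x := by
        unfold HD0.a
        ring
      rw [e1]
      exact add_mem ma (mul_mem mt mx)
    exact sup_le mt my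
  have h1 : dg H.F u ≤ dg H.t 1 ⊔ (dg H.a 1 ⊔ dg H.x 1) :=
    ht.lfq.trans (sup_le hq (le_sup_of_le_right le_sup_right))
  apply le_of_I_zero h1
  rw [I_eq']
  have hL : dg H.F u ⊔ (dg H.a 1 ⊔ dg H.x 1) ≤ H.L := by
    refine sup_le ((dg_mono _ hu).trans (le_sup_left.trans (le_sup_right.trans le_sup_left))) (sup_le ?_ ?_)
    · exact le_sup_right.trans (le_sup_left.trans le_sup_left)
    · exact le_sup_left.trans (le_sup_left.trans le_sup_left)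
  have h2 := h_anti (A := dg H.t 1) hL
  rw [hc.time] at h2
  have h3 := h_dg_le_one H.t (dg H.a 1 ⊔ dg H.x 1)
  have h4 := h_anti (A := dg H.t 1) (le_sup_right : dg H.a 1 ⊔ dg H.x 1 ≤ dg H.F u ⊔ (dg H.a 1 ⊔ dg H.x 1))
  linarith [h_dg_le_one H.t (dg H.F u ⊔ (dg H.a 1 ⊔ dg H.x 1))]

end ht

end

end Pool.Agent.Helper79.NF
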