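import Pool.Agent.Helper79.NF.Def

/-! The normal form of the raw corner: if (on an extension) the velocity of `R` is `be + al x + th a` with constants of
zero entropy and `th` is a unit, then the Heisenberg coordinate `(R - be t - al y) / th` has the velocity `a`, the
intercept of the base line, and all hypotheses of the corner over the Heisenberg group hold. -/

set_option autoImplicit false

namespace Pool.Agent.Helper79.NF

open Finset Filter Topology Pool.Agent.Helper69.RK Pool.Agent.Helper31.EC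

noncomputable section

open Sp QS Pool.Agent.Helper82.TP

variable {S T : Sp}

/-- the data of the corner over the Heisenberg group -/
def nfd (H : HD0 S) (p : Pj T S) (th ti al be : QS T) : HD T where
  t := p.qs H.t
  x := p.qs H.x
  y := p.qs H.y
  R := ti * (p.qs H.R - be * p.qs H.t - al * p.qs H.y)
  z := p.qs H.z
  v := p.qs H.v
  β := fun s k => H.β s k × (Fin 4 → Fin 1 → ℤ)
  K := fun s k ω => (H.K s k (p.π k ω), cel ![th, ti, al, be] k ω)

section one

variable {H : HD0 S} {p : Pj T S} {th ti al be : QS T} (hth : dg th 1 = ⊥) (hti : dg ti 1 = ⊥) (hal : dg al 1 = ⊥)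
  (hbe : dg be 1 = ⊥) (hu : ti * th = 1) (hF : p.qs H.F = be + al * p.qs H.x + th * p.qs H.a)

omit H p in
theorem cel_bot (hth : dg th 1 = ⊥) (hti : dg ti 1 = ⊥) (hal : dg al 1 = ⊥) (hbe : dg be 1 = ⊥) :
    io (α := fun _ => Fin 4 → Fin 1 → ℤ) (cel ![th, ti, al, be]) = ⊥ := by
  rw [(cel_bdd _).2]
  apply le_antisymm _ bot_le
  apply Finset.sup_le
  intro i _
  fin_cases i
  · exact hth.le
  · exact hti.le
  · exact hal.le
  · exact hbe.le

include hth hti hal hbe in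
theorem nf_bdd {s : ℝ} (hb : Bdd (H.K s)) : Bdd ((nfd H p th ti al be).K s) ∧
    (nfd H p th ti al be).κ s = p.map (H.κ s) := by
  have h1 := (p.bdd_iff (H.K s)).mpr hb
  have h2 := (cel_bdd ![th, ti, al, be]).1
  refine ⟨h1.pair h2, (io_pair h1 h2).trans ?_⟩
  rw [cel_bot hth hti hal hbe, sup_bot_eq]
  exact (p.map_io (H.K s)).symm

theorem c0 {c : QS T} (hc : dg c 1 = ⊥) {r : ℝ} (hr : r ≤ 1) (A : T.L) : c ∈ Kn T r hr A := by
  have h1 := dg_mono c hr
  rw [hc] at h1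
  exact h1.trans bot_le

include hth hti hal hbe hu in
theorem nf_span {r : ℝ} (hr : r ≤ 1) : dg (nfd H p th ti al be).t r ⊔ dg (nfd H p th ti al be).y r ⊔
    dg (nfd H p th ti al be).R r = p.map (dg H.t r ⊔ dg H.y r ⊔ dg H.R r) := by
  rw [Pj.map_sup, Pj.map_sup, ← p.qs_dg, ← p.qs_dg, ← p.qs_dg]
  apply le_antisymm
  · refine _root_.sup_le le_sup_left ?_
    have h1 : p.qs H.t ∈ Kn T r hr (dg (p.qs H.t) r ⊔ dg (p.qs H.y) r ⊔ dg (p.qs H.R) r) :=
      mem_Kn.mpr (le_sup_of_le_left le_sup_left)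
    have h2 : p.qs H.y ∈ Kn T r hr (dg (p.qs H.t) r ⊔ dg (p.qs H.y) r ⊔ dg (p.qs H.R) r) :=
      mem_Kn.mpr (le_sup_of_le_left le_sup_right)
    have h3 : p.qs H.R ∈ Kn T r hr (dg (p.qs H.t) r ⊔ dg (p.qs H.y) r ⊔ dg (p.qs H.R) r) := mem_Kn.mpr le_sup_right
    exact mul_mem (c0 hti hr _) (sub_mem (sub_mem h3 (mul_mem (c0 hbe hr _) h1)) (mul_mem (c0 hal hr _) h2))
  · refine _root_.sup_le le_sup_left ?_
    have e1 : p.qs H.R = th * (nfd H p th ti al be).R + be * p.qs H.t + al * p.qs H.y := by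
      show p.qs H.R = th * (ti * (p.qs H.R - be * p.qs H.t - al * p.qs H.y)) + be * p.qs H.t + al * p.qs H.y
      have e2 : th * (ti * (p.qs H.R - be * p.qs H.t - al * p.qs H.y)) =
          ti * th * (p.qs H.R - be * p.qs H.t - al * p.qs H.y) := by ring
      rw [e2, hu]
      ring
    have h1 : p.qs H.t ∈ Kn T r hr (dg (p.qs H.t) r ⊔ dg (p.qs H.y) r ⊔ dg (nfd H p th ti al be).R r) :=
      mem_Kn.mpr (le_sup_of_le_left le_sup_left)
    have h2 : p.qs H.y ∈ Kn T r hr (dg (p.qs H.t) r ⊔ dg (p.qs H.y) r ⊔ dg (nfd H p th ti al be).R r) :=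
      mem_Kn.mpr (le_sup_of_le_left le_sup_right)
    have h3 : (nfd H p th ti al be).R ∈ Kn T r hr (dg (p.qs H.t) r ⊔ dg (p.qs H.y) r ⊔
      dg (nfd H p th ti al be).R r) := mem_Kn.mpr le_sup_right
    have h4 : p.qs H.R ∈ Kn T r hr (dg (p.qs H.t) r ⊔ dg (p.qs H.y) r ⊔ dg (nfd H p th ti al be).R r) := by
      rw [e1]
      exact add_mem (add_mem (mul_mem (c0 hth hr _) h3) (mul_mem (c0 hbe hr _) h1)) (mul_mem (c0 hal hr _) h2)
    exact h4

include hth hti hal hbe hu in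
theorem nf_M : (nfd H p th ti al be).M = p.map H.M := nf_span hth hti hal hbe hu le_rfl

include hth hti hal hbe hu in
theorem nf_iso {r : ℝ} (hr : r ≤ 1) : (nfd H p th ti al be).iso r = p.map (H.iso r) := nf_span hth hti hal hbe hu hr

include hth hti hal hbe hu in
theorem nf_B : (nfd H p th ti al be).B = p.map H.B := by
  have h1 := nf_M (H := H) (p := p) hth hti hal hbe hu
  show (nfd H p th ti al be).M ⊔ dg (p.qs H.z) 1 = p.map (H.M ⊔ dg H.z 1)
  rw [h1, Pj.map_sup, p.qs_dg]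

theorem nf_a : (nfd H p th ti al be).a = p.qs H.a := by
  show p.qs H.y - p.qs H.t * p.qs H.x = p.qs (H.y - H.t * H.x)
  rw [map_sub, map_mul]

include hu hF in
theorem nf_aR : (nfd H p th ti al be).aR = ti * (p.qs H.cR - al * p.qs H.a) := by
  show ti * (p.qs H.R - be * p.qs H.t - al * p.qs H.y) - p.qs H.t * (nfd H p th ti al be).a =
    ti * (p.qs (H.R - H.t * H.F) - al * p.qs H.a)
  rw [nf_a, map_sub, map_mul, hF]
  have e1 : p.qs H.y = p.qs H.a + p.qs H.t * p.qs H.x := by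
    show p.qs H.y = p.qs (H.y - H.t * H.x) + p.qs H.t * p.qs H.x
    rw [map_sub, map_mul]
    ring
  have e2 : p.qs H.t * p.qs H.a = ti * th * (p.qs H.t * p.qs H.a) := by rw [hu, one_mul]
  rw [e1]
  have e3 : ti * (p.qs H.R - be * p.qs H.t - al * (p.qs H.a + p.qs H.t * p.qs H.x)) - p.qs H.t * p.qs H.a =
      ti * (p.qs H.R - be * p.qs H.t - al * (p.qs H.a + p.qs H.t * p.qs H.x)) - ti * th * (p.qs H.t * p.qs H.a) := by
    rw [← e2]
  rw [e3]
  ring

include hth hti hal hbe hu hF in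
theorem nf_L : (nfd H p th ti al be).L = p.map H.L := by
  have e1 : p.map H.L = dg (p.qs H.x) 1 ⊔ dg (p.qs H.a) 1 ⊔ (dg (p.qs H.F) 1 ⊔ dg (p.qs H.cR) 1) ⊔
      (dg (p.qs H.v) 1 ⊔ dg (p.qs H.az) 1) := by
    unfold HD0.L
    rw [Pj.map_sup, Pj.map_sup, Pj.map_sup, Pj.map_sup, Pj.map_sup, p.qs_dg, p.qs_dg, p.qs_dg, p.qs_dg, p.qs_dg,
      p.qs_dg]
  have e2 : (nfd H p th ti al be).az = p.qs H.az := by
    show p.qs H.z - p.qs H.t * p.qs H.v = p.qs (H.z - H.t * H.v)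
    rw [map_sub, map_mul]
  have e3 : (nfd H p th ti al be).L = dg (p.qs H.x) 1 ⊔ dg (p.qs H.a) 1 ⊔ dg (nfd H p th ti al be).aR 1 ⊔
      (dg (p.qs H.v) 1 ⊔ dg (p.qs H.az) 1) := by
    show dg (p.qs H.x) 1 ⊔ dg (nfd H p th ti al be).a 1 ⊔ dg (nfd H p th ti al be).aR 1 ⊔
      (dg (p.qs H.v) 1 ⊔ dg (nfd H p th ti al be).az 1) = _
    rw [nf_a, e2]
  rw [e1, e3]
  congr 1
  apply le_antisymm
  · refine _root_.sup_le le_sup_left ?_
    rw [nf_aR hu hF]
    have h1 : p.qs H.cR ∈ Kn T 1 le_rfl (dg (p.qs H.x) 1 ⊔ dg (p.qs H.a) 1 ⊔ (dg (p.qs H.F) 1 ⊔ dg (p.qs H.cR) 1)) :=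
      mem_Kn.mpr (le_sup_of_le_right le_sup_right)
    have h2 : p.qs H.a ∈ Kn T 1 le_rfl (dg (p.qs H.x) 1 ⊔ dg (p.qs H.a) 1 ⊔ (dg (p.qs H.F) 1 ⊔ dg (p.qs H.cR) 1)) :=
      mem_Kn.mpr (le_sup_of_le_left le_sup_right)
    exact mul_mem (c0 hti le_rfl _) (sub_mem h1 (mul_mem (c0 hal le_rfl _) h2))
  · refine _root_.sup_le le_sup_left ?_
    have h1 : p.qs H.x ∈ Kn T 1 le_rfl (dg (p.qs H.x) 1 ⊔ dg (p.qs H.a) 1 ⊔ dg (nfd H p th ti al be).aR 1) :=
      mem_Kn.mpr (le_sup_of_le_left le_sup_left)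
    have h2 : p.qs H.a ∈ Kn T 1 le_rfl (dg (p.qs H.x) 1 ⊔ dg (p.qs H.a) 1 ⊔ dg (nfd H p th ti al be).aR 1) :=
      mem_Kn.mpr (le_sup_of_le_left le_sup_right)
    have h3 : (nfd H p th ti al be).aR ∈ Kn T 1 le_rfl (dg (p.qs H.x) 1 ⊔ dg (p.qs H.a) 1 ⊔
      dg (nfd H p th ti al be).aR 1) := mem_Kn.mpr le_sup_right
    refine _root_.sup_le ?_ ?_
    · have h4 : p.qs H.F ∈ Kn T 1 le_rfl (dg (p.qs H.x) 1 ⊔ dg (p.qs H.a) 1 ⊔ dg (nfd H p th ti al be).aR 1) := by
        rw [hF]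
        exact add_mem (add_mem (c0 hbe le_rfl _) (mul_mem (c0 hal le_rfl _) h1)) (mul_mem (c0 hth le_rfl _) h2)
      exact h4
    · have e4 : p.qs H.cR = th * (nfd H p th ti al be).aR + al * p.qs H.a := by
        rw [nf_aR hu hF]
        have e5 : th * (ti * (p.qs H.cR - al * p.qs H.a)) = ti * th * (p.qs H.cR - al * p.qs H.a) := by ring
        rw [e5, hu]
        ring
      have h4 : p.qs H.cR ∈ Kn T 1 le_rfl (dg (p.qs H.x) 1 ⊔ dg (p.qs H.a) 1 ⊔ dg (nfd H p th ti al be).aR 1) := by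
        rw [e4]
        exact add_mem (mul_mem (c0 hth le_rfl _) h3) (mul_mem (c0 hal le_rfl _) h2)
      exact h4

end one

/-- literal functions of the first variable -/
theorem lit_fst {H : HD0 S} {p : Pj T S} {th ti al be : QS T} {s : ℝ} {f : QS S} (hf : Lit (H.K s) f) :
    Lit ((nfd H p th ti al be).K s) (p.qs f) :=
  (lit_pull p hf).of_fun (Eventually.of_forall fun k ω ω' _ _ _ e => by
    have h1 : (H.K s k (p.π k ω), cel ![th, ti, al, be] k ω) = (H.K s k (p.π k ω'), cel ![th, ti, al, be] k ω') := e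
    rw [Prod.mk.injEq] at h1
    exact h1.1)

/-- the coefficients are literal functions -/
theorem lit_snd {H : HD0 S} {p : Pj T S} {th ti al be : QS T} {s : ℝ} (i : Fin 4) :
    Lit ((nfd H p th ti al be).K s) (![th, ti, al, be] i) :=
  (cel_lit ![th, ti, al, be] i).of_fun (Eventually.of_forall fun k ω ω' _ _ _ e => by
    have h1 : (H.K s k (p.π k ω), cel ![th, ti, al, be] k ω) = (H.K s k (p.π k ω'), cel ![th, ti, al, be] k ω') := e
    rw [Prod.mk.injEq] at h1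
    exact h1.2)

/-- NORMAL FORM -/
theorem nf {H : HD0 S} {w ρ σ r1 : ℝ} {Sc : Set ℝ} {r0 rt ry z0 k0 k1 c : ℝ → QS S}
    (hc : HC0 H 2 w ρ σ r1 Sc r0 rt ry z0 k0 k1 c) (p : Pj T S) {th ti al be : QS T} (hth : dg th 1 = ⊥)
    (hti : dg ti 1 = ⊥) (hal : dg al 1 = ⊥) (hbe : dg be 1 = ⊥) (hu : ti * th = 1)
    (hF : p.qs H.F = be + al * p.qs H.x + th * p.qs H.a) :
    HC (nfd H p th ti al be) w ρ σ r1 Sc (fun s => p.qs (z0 s)) (fun s => p.qs (k0 s) + p.qs (c s) * be)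
      (fun s => p.qs (k1 s) + p.qs (c s) * al) (fun s => p.qs (c s) * th) := by
  have hw := hc.hw
  have h2s : ∀ s ∈ Sc, 2 * s ≤ 1 ∧ w * s ≤ 1 := fun s hs => by
    have h1 := hc.le s hs
    have h2 := hc.pos s hs
    have h3 := hc.hwσ
    have h4 := hc.hσ
    constructor <;> nlinarith
  have hId : ∀ {r : ℝ} {f : QS S}, r ≤ 1 → f ∈ Id S r → p.qs f ∈ Id T r := fun hr hf => (Pj.qs_mem_Id p hr).mpr hf
  have hs1 : ∀ s ∈ Sc, s ≤ 1 := fun s hs => by
    have h1 := hc.pos s hs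
    have h2 := (h2s s hs).1
    linarith
  have hM := nf_M (H := H) (p := p) hth hti hal hbe hu
  have hB := nf_B (H := H) (p := p) hth hti hal hbe hu
  have hL := nf_L (H := H) (p := p) hth hti hal hbe hu hF
  have hth' := fun s => lit_snd (H := H) (p := p) (th := th) (ti := ti) (al := al) (be := be) (s := s) 0
  have hti' := fun s => lit_snd (H := H) (p := p) (th := th) (ti := ti) (al := al) (be := be) (s := s) 1
  have hal' := fun s => lit_snd (H := H) (p := p) (th := th) (ti := ti) (al := al) (be := be) (s := s) 2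
  have hbe' := fun s => lit_snd (H := H) (p := p) (th := th) (ti := ti) (al := al) (be := be) (s := s) 3
  have eR : p.qs H.R = th * (nfd H p th ti al be).R + be * p.qs H.t + al * p.qs H.y := by
    show p.qs H.R = th * (ti * (p.qs H.R - be * p.qs H.t - al * p.qs H.y)) + be * p.qs H.t + al * p.qs H.y
    have e2 : th * (ti * (p.qs H.R - be * p.qs H.t - al * p.qs H.y)) =
        ti * th * (p.qs H.R - be * p.qs H.t - al * p.qs H.y) := by ring
    rw [e2, hu]
    ring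
  constructor
  · exact fun s hs => (nf_bdd hth hti hal hbe (hc.bdd s hs)).1
  · intro s hs s' hs' hss
    filter_upwards [hc.nest s hs s' hs' hss] with k hk ω ω' a b v e
    have h1 : (H.K s' k (p.π k ω), cel ![th, ti, al, be] k ω) = (H.K s' k (p.π k ω'), cel ![th, ti, al, be] k ω') := e
    rw [Prod.mk.injEq] at h1
    show (H.K s k (p.π k ω), cel ![th, ti, al, be] k ω) = (H.K s k (p.π k ω'), cel ![th, ti, al, be] k ω')
    rw [Prod.mk.injEq]
    exact ⟨hk _ _ (p.supp k ω a) (p.supp k ω' b) ((p.hZ k ω ω' a b).mp v) h1.1, h1.2⟩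
  · exact hc.pos
  · exact hc.le
  · rw [hL]
    show h (dg (p.qs H.t) 1) (p.map H.L) = 1
    rw [p.qs_dg, p.h_map, hc.time]
  · intro s hs
    rw [hL, (nf_bdd hth hti hal hbe (hc.bdd s hs)).2]
    show I (p.map (H.κ s)) (dg (p.qs H.t) 1) (p.map H.L ⊔ dg (p.qs H.t) s) = 0
    rw [p.qs_dg, p.qs_dg, ← p.map_sup, p.I_map]
    exact hc.leakA s hs
  · intro s hs
    rw [hB, (nf_bdd hth hti hal hbe (hc.bdd s hs)).2]
    show I (dg (p.qs H.x) 1) (p.map (H.κ s) ⊔ p.map H.B) ⊥ = 0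
    rw [p.qs_dg, ← p.map_sup, ← p.map_bot, p.I_map]
    exact hc.T1 s hs
  · intro W q E hE r hr hr'
    have h1 := hc.rich W (q.comp p) E hE r hr hr'
    rw [Pj.comp_map, Pj.comp_map] at h1
    rw [hB]
    show 0 < h (restL E hE (q.map (dg (p.qs H.x) r))) (restL E hE (q.map (p.map H.B)))
    rw [p.qs_dg]
    exact h1
  · intro s hs
    obtain ⟨t0, h1, h2, h3⟩ := hc.tc s hs
    refine ⟨p.qs t0, lit_fst h1, ?_, ?_⟩
    · show p.qs H.t - p.qs t0 ∈ Id T s
      rw [← map_sub]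
      exact hId (hs1 s hs) h2
    · show dg (p.qs t0) 1 ≤ dg (p.qs H.t) s
      rw [p.qs_dg, p.qs_dg]
      exact p.map_mono h3
  · intro s hs
    rw [(nf_bdd hth hti hal hbe (hc.bdd s hs)).2, hM, nf_iso hth hti hal hbe hu (h2s s hs).1, p.I_map]
    exact hc.isoM s hs
  · intro s hs
    refine ⟨ti * p.qs (r0 s), ti * (p.qs (rt s) - be), ti * (p.qs (ry s) - al), ?_, ?_, ?_, ?_⟩
    · exact (hti' s).mul (lit_fst (hc.lr0 s hs))
    · exact (hti' s).mul ((lit_fst (hc.lrt s hs)).sub (hbe' s))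
    · exact (hti' s).mul ((lit_fst (hc.lry s hs)).sub (hal' s))
    · have h1 := hId (h2s s hs).1 (hc.frR s hs)
      have h2 := (Id T (2 * s)).mul_mem_left ti h1
      have e1 : (nfd H p th ti al be).R - (ti * p.qs (r0 s) + ti * (p.qs (rt s) - be) * (nfd H p th ti al be).t +
          ti * (p.qs (ry s) - al) * (nfd H p th ti al be).y) = ti * p.qs (H.R - (r0 s + rt s * H.t + ry s * H.y)) := by
        show ti * (p.qs H.R - be * p.qs H.t - al * p.qs H.y) - (ti * p.qs (r0 s) + ti * (p.qs (rt s) - be) * p.qs H.t +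
          ti * (p.qs (ry s) - al) * p.qs H.y) = _
        rw [map_sub, map_add, map_add, map_mul, map_mul]
        ring
      rw [e1]
      exact h2
  · exact fun s hs => lit_fst (hc.lz0 s hs)
  · exact fun s hs => (lit_fst (hc.lk0 s hs)).add ((lit_fst (hc.lc s hs)).mul (hbe' s))
  · exact fun s hs => (lit_fst (hc.lk1 s hs)).add ((lit_fst (hc.lc s hs)).mul (hal' s))
  · exact fun s hs => (lit_fst (hc.lc s hs)).mul (hth' s)
  · intro s hs
    have h1 := hId (h2s s hs).2 (hc.frZ s hs)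
    have e1 : (nfd H p th ti al be).z - (p.qs (z0 s) + (p.qs (k0 s) + p.qs (c s) * be) * (nfd H p th ti al be).t +
        (p.qs (k1 s) + p.qs (c s) * al) * (nfd H p th ti al be).y + p.qs (c s) * th * (nfd H p th ti al be).R) =
        p.qs (H.z - (z0 s + k0 s * H.t + k1 s * H.y + c s * H.R)) := by
      show p.qs H.z - (p.qs (z0 s) + (p.qs (k0 s) + p.qs (c s) * be) * p.qs H.t +
        (p.qs (k1 s) + p.qs (c s) * al) * p.qs H.y + p.qs (c s) * th * (nfd H p th ti al be).R) = _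
      rw [map_sub, map_add, map_add, map_add, map_mul, map_mul, map_mul, eR]
      ring
    rw [e1]
    exact h1
  · rw [hM]
    exact hc.uns.pull p
  · rw [hM]
    show dg (p.qs H.v) r1 ≤ p.map H.M ⊔ dg (p.qs H.x) 1
    rw [p.qs_dg, p.qs_dg, ← p.map_sup]
    exact p.map_mono hc.slope
  · exact hc.hw
  · exact hc.hρ
  · exact hc.hσ
  · exact hc.hwσ
  · exact hc.hr1
  · exact hc.hr1'

/-- the digits of the frame go back -/
theorem nf_back {p : Pj T S} {th ti al be : QS T} (hti : dg ti 1 = ⊥) (hal : dg al 1 = ⊥)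
    (hbe : dg be 1 = ⊥) (hu : ti * th = 1) {z0 k0 k1 c : QS S} {v : ℝ} (hv : v ≤ 1) {A : S.L}
    (hh : dg (p.qs z0) v ⊔ dg (p.qs k0 + p.qs c * be) v ⊔ dg (p.qs k1 + p.qs c * al) v ⊔ dg (p.qs c * th) v ≤
      p.map A) : dg z0 v ⊔ dg k0 v ⊔ dg k1 v ⊔ dg c v ≤ A := by
  have h1 : p.qs z0 ∈ Kn T v hv (p.map A) := le_sup_left.trans (le_sup_left.trans (le_sup_left.trans hh))
  have h2 : p.qs k0 + p.qs c * be ∈ Kn T v hv (p.map A) := le_sup_right.trans (le_sup_left.trans (le_sup_left.trans hh))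
  have h3 : p.qs k1 + p.qs c * al ∈ Kn T v hv (p.map A) := le_sup_right.trans (le_sup_left.trans hh)
  have h4 : p.qs c * th ∈ Kn T v hv (p.map A) := le_sup_right.trans hh
  have h5 : p.qs c ∈ Kn T v hv (p.map A) := by
    have e1 : p.qs c = ti * (p.qs c * th) := by
      calc p.qs c = ti * th * p.qs c := by rw [hu, one_mul]
        _ = ti * (p.qs c * th) := by ring
    rw [e1]
    exact mul_mem (c0 hti hv _) h4
  have h6 : p.qs k0 ∈ Kn T v hv (p.map A) := by
    have e1 : p.qs k0 = (p.qs k0 + p.qs c * be) - p.qs c * be := by ring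
    rw [e1]
    exact sub_mem h2 (mul_mem h5 (c0 hbe hv _))
  have h7 : p.qs k1 ∈ Kn T v hv (p.map A) := by
    have e1 : p.qs k1 = (p.qs k1 + p.qs c * al) - p.qs c * al := by ring
    rw [e1]
    exact sub_mem h3 (mul_mem h5 (c0 hal hv _))
  have key : ∀ f : QS S, p.qs f ∈ Kn T v hv (p.map A) → dg f v ≤ A := fun f hf => by
    have h8 : dg (p.qs f) v ≤ p.map A := hf
    rw [p.qs_dg, p.map_le] at h8
    exact h8
  exact _root_.sup_le (_root_.sup_le (_root_.sup_le (key _ h1) (key _ h6)) (key _ h7)) (key _ h5)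

end

end Pool.Agent.Helper79.NF
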