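import Pool.Agent.Helper31.NSB.St
import Pool.Agent.Helper82.TP.SL

/-! Case B, common fields `CC`: the velocities of `R` and `z` in the box of a label (two points of the line in the box).
-/

set_option autoImplicit false

namespace Pool.Agent.Helper79.NF

open Finset Filter Topology Pool.Agent.Helper69.RK Pool.Agent.Helper31.EC

noncomputable section

open Sp QS Pool.Agent.Helper82.TP Pool.Agent.Helper31.NSB

variable {S : Sp} {H : RD S} {f : FR S} {w1 w ρ : ℝ} {Sc : Set ℝ}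

/-- the time is full beyond the box, over the line -/
theorem cc_time3 (hc : CC H f w1 w ρ Sc) {s : ℝ} (hs : s ∈ Sc) (hs1 : s ≤ 1) :
    1 - s ≤ h (dg H.t 1) (H.L ⊔ dg H.t s ⊔ H.κ s) := by
  have h1 : I (dg H.t 1) (H.κ s) (H.L ⊔ dg H.t s) = 0 := by
    rw [I_comm]
    exact hc.leakA s hs
  rw [I_zero_iff_h] at h1
  have e1 : H.L ⊔ dg H.t s ⊔ H.κ s = H.κ s ⊔ (H.L ⊔ dg H.t s) := sup_comm _ _
  rw [e1, h1]
  have h2 := h_chain (dg H.t s) (dg H.t 1) H.L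
  have e2 : dg H.t s ⊔ dg H.t 1 = dg H.t 1 := sup_eq_right.mpr (dg_mono H.t hs1)
  rw [e2, hc.time, sup_comm (dg H.t s) H.L] at h2
  have h3 := (h_le_H (dg H.t s) H.L).trans (H_dg_le H.t (hc.nn s hs))
  linarith

/-- a copy over the line, the first digits of the time and the label of the window `s` -/
structure LC0 (H : HD0 S) {W : Sp} (p : Pj W S) (s : ℝ) where
  D : Sp
  p1 : Pj D W
  p2 : Pj D S
  lit : ∀ g, Lit (H.K s) g → p1.qs (p.qs g) = p2.qs g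
  cx : p1.qs (p.qs H.x) = p2.qs H.x
  ca : p1.qs (p.qs H.a) = p2.qs H.a
  cF : p1.qs (p.qs H.F) = p2.qs H.F
  ccR : p1.qs (p.qs H.cR) = p2.qs H.cR
  cv : p1.qs (p.qs H.v) = p2.qs H.v
  caz : p1.qs (p.qs H.az) = p2.qs H.az
  small : p2.qs H.t - p1.qs (p.qs H.t) ∈ Id D s
  com : p1.map (p.map (H.κ s ⊔ (H.L ⊔ dg H.t s))) = p2.map (H.κ s ⊔ (H.L ⊔ dg H.t s))
  ind : ∀ X Y, I (p1.map X) (p2.map Y) (p1.map (p.map (H.κ s ⊔ (H.L ⊔ dg H.t s)))) = 0
  real : ∀ X : W.L, 1 - s ≤ h (dg (p2.qs H.t - p1.qs (p.qs H.t)) 1) (p1.map X)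

theorem exists_LC0 (hc : CC H f w1 w ρ Sc) {s : ℝ} (hs : s ∈ Sc) (hs1 : s ≤ 1) {W : Sp} (p : Pj W S) :
    Nonempty (LC0 H.toHD0 p s) := by
  obtain ⟨D, p1, p2, h1, h2, _, h4, h5, h6⟩ := exists_lab p (H.K s) (hc.bdd s hs)
    ![H.x, H.a, H.F, H.cR, H.v, H.az, H.t] ![1, 1, 1, 1, 1, 1, s] (by
      intro i
      fin_cases i
      · exact le_rfl
      · exact le_rfl
      · exact le_rfl
      · exact le_rfl
      · exact le_rfl
      · exact le_rfl
      · exact hs1)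
  have hV : (Finset.univ.sup fun i => dg (![H.x, H.a, H.F, H.cR, H.v, H.az, H.t] i) (![1, 1, 1, 1, 1, 1, s] i)) =
      H.L ⊔ dg H.t s := by
    apply le_antisymm
    · rw [sup_fin_le]
      intro i
      fin_cases i
      · exact (le_sup_left.trans (le_sup_left.trans le_sup_left)).trans le_sup_left
      · exact (le_sup_right.trans (le_sup_left.trans le_sup_left)).trans le_sup_left
      · exact (le_sup_left.trans (le_sup_right.trans le_sup_left)).trans le_sup_left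
      · exact (le_sup_right.trans (le_sup_right.trans le_sup_left)).trans le_sup_left
      · exact (le_sup_left.trans le_sup_right).trans le_sup_left
      · exact (le_sup_right.trans le_sup_right).trans le_sup_left
      · exact le_sup_right
    · have g := (sup_fin_le (fun i => dg (![H.x, H.a, H.F, H.cR, H.v, H.az, H.t] i)
        (![1, 1, 1, 1, 1, 1, s] i)) _).mp le_rfl
      exact sup_le (sup_le (sup_le (sup_le (g 0) (g 1)) (sup_le (g 2) (g 3))) (sup_le (g 4) (g 5))) (g 6)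
  have hcom : p1.map (p.map (H.κ s ⊔ (H.L ⊔ dg H.t s))) = p2.map (H.κ s ⊔ (H.L ⊔ dg H.t s)) := by
    rw [← hV, p.map_sup, p1.map_sup, p2.map_sup]
    congr 1
    rw [p.map_finsup, p1.map_finsup, p2.map_finsup]
    congr 1
    funext i
    exact h6 i
  have hz : ∀ f g : QS D, f - g ∈ Id D 1 → f = g := fun f g hfg => sub_eq_zero.mp (mem_Id_one.mp hfg)
  refine ⟨⟨D, p1, p2, h1, hz _ _ (h2 0), hz _ _ (h2 1), hz _ _ (h2 2), hz _ _ (h2 3), hz _ _ (h2 4), hz _ _ (h2 5),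
    ?_, hcom, ?_, ?_⟩⟩
  · have h7 := h2 6
    have h8 : p2.qs H.t - p1.qs (p.qs H.t) = -(p1.qs (p.qs H.t) - p2.qs H.t) := by ring
    rw [h8]
    exact (Id D s).neg_mem h7
  · intro X Y
    have e1 := h4 X Y
    rw [hV] at e1
    exact e1
  · intro X
    have e1 := h4 (X ⊔ p.map (dg H.t 1)) (dg H.t 1)
    rw [hV, show io (H.K s) = H.κ s from rfl, I_zero_iff_h'] at e1
    have e2 : 1 - s ≤ h (p2.map (dg H.t 1)) (p1.map (p.map (H.κ s ⊔ (H.L ⊔ dg H.t s)))) := by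
      rw [hcom, Pj.h_map, sup_comm]
      exact cc_time3 hc hs hs1
    rw [← e1] at e2
    have e3 : p2.map (dg H.t 1) ≤ dg (p2.qs H.t - p1.qs (p.qs H.t)) 1 ⊔ p1.map (X ⊔ p.map (dg H.t 1)) := by
      rw [← p2.qs_dg]
      have e4 : p2.qs H.t = (p2.qs H.t - p1.qs (p.qs H.t)) + p1.qs (p.qs H.t) := by ring
      have e5 := dg_add_le (p2.qs H.t - p1.qs (p.qs H.t)) (p1.qs (p.qs H.t)) (le_refl (1 : ℝ))
      rw [← e4] at e5
      refine e5.trans (sup_le_sup_left ?_ _)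
      rw [p1.qs_dg, p.qs_dg]
      exact p1.map_mono le_sup_right
    have e6 : h (p2.map (dg H.t 1)) (p1.map (X ⊔ p.map (dg H.t 1)) ⊔ p1.map (p.map (H.κ s ⊔ (H.L ⊔ dg H.t s)))) ≤
        h (dg (p2.qs H.t - p1.qs (p.qs H.t)) 1)
          (p1.map (X ⊔ p.map (dg H.t 1)) ⊔ p1.map (p.map (H.κ s ⊔ (H.L ⊔ dg H.t s)))) := by
      have e7 := h_mono (B := p1.map (X ⊔ p.map (dg H.t 1)) ⊔ p1.map (p.map (H.κ s ⊔ (H.L ⊔ dg H.t s))))
        (e3.trans (sup_le_sup_left le_sup_left _ :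
        dg (p2.qs H.t - p1.qs (p.qs H.t)) 1 ⊔ p1.map (X ⊔ p.map (dg H.t 1)) ≤
          dg (p2.qs H.t - p1.qs (p.qs H.t)) 1 ⊔
            (p1.map (X ⊔ p.map (dg H.t 1)) ⊔ p1.map (p.map (H.κ s ⊔ (H.L ⊔ dg H.t s))))))
      rw [h_sup_right_of_le (le_refl _)] at e7
      exact e7
    refine e2.trans (e6.trans (h_anti ?_))
    exact (p1.map_mono le_sup_left).trans le_sup_left

theorem y_eq (H : HD0 S) {D : Sp} (q : Pj D S) : q.qs H.y = q.qs H.a + q.qs H.t * q.qs H.x := by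
  unfold HD0.a
  rw [map_sub, map_mul]
  ring

theorem R_eq (H : HD0 S) {D : Sp} (q : Pj D S) : q.qs H.R = q.qs H.cR + q.qs H.t * q.qs H.F := by
  unfold HD0.cR
  rw [map_sub, map_mul]
  ring

theorem z_eq (H : HD0 S) {D : Sp} (q : Pj D S) : q.qs H.z = q.qs H.az + q.qs H.t * q.qs H.v := by
  unfold HD0.az
  rw [map_sub, map_mul]
  ring

/-- the velocity of `R` in the box of a label -/
theorem velR (hc : CC H f w1 w ρ Sc) {s : ℝ} (hs : s ∈ Sc) (hs1 : s ≤ 1) (hws : w1 * s ≤ 1) :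
    H.F - (f.rt s + f.ry s * H.x) ∈ Id S (w1 * s - s) := by
  obtain ⟨D⟩ := exists_LC0 hc hs hs1 (Pj.id S)
  have hi : ∀ f : QS S, (Pj.id S).qs f = f := fun f => Pj.id_qs f
  have e1 := Pj_mem_Id D.p1 (hc.frR s hs)
  have e2 := Pj_mem_Id D.p2 (hc.frR s hs)
  obtain ⟨l0, l1, l2⟩ := hc.lr s hs
  have a1 := D.lit _ l0
  have a2 := D.lit _ l1
  have a3 := D.lit _ l2
  have b1 := D.cx
  have b2 := D.ca
  have b3 := D.cF
  have b4 := D.ccR
  rw [hi] at a1 a2 a3 b1 b2 b3 b4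
  have e3 : (D.p2.qs H.t - D.p1.qs ((Pj.id S).qs H.t)) * D.p1.qs (H.F - (f.rt s + f.ry s * H.x)) ∈
      Id D.D (w1 * s) := by
    have e4 := (Id D.D (w1 * s)).sub_mem e2 e1
    have e5 : (D.p2.qs H.t - D.p1.qs ((Pj.id S).qs H.t)) * D.p1.qs (H.F - (f.rt s + f.ry s * H.x)) =
        D.p2.qs (H.R - (f.r0 s + f.rt s * H.t + f.ry s * H.y)) -
          D.p1.qs (H.R - (f.r0 s + f.rt s * H.t + f.ry s * H.y)) := by
      rw [hi]
      simp only [map_sub, map_add, map_mul, y_eq H.toHD0, R_eq H.toHD0, ← a1, ← a2, ← a3, ← b1, ← b2, ← b3, ← b4]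
      ring
    rw [e5]
    exact e4
  have e6 := div_small hs1 D.small (D.real ⊥) hws e3
  have h0 := hc.nn s hs
  exact (Pj.qs_mem_Id D.p1 (by linarith)).mp e6

/-- the velocity of `z` in the box of a label -/
theorem velZ (hc : CC H f w1 w ρ Sc) {s : ℝ} (hs : s ∈ Sc) (hs1 : s ≤ 1) (hws : w * s ≤ 1) :
    H.v - (f.k0 s + f.k1 s * H.x + f.c s * H.F) ∈ Id S (w * s - s) := by
  obtain ⟨D⟩ := exists_LC0 hc hs hs1 (Pj.id S)
  have hi : ∀ f : QS S, (Pj.id S).qs f = f := fun f => Pj.id_qs f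
  have e1 := Pj_mem_Id D.p1 (hc.frZ s hs)
  have e2 := Pj_mem_Id D.p2 (hc.frZ s hs)
  obtain ⟨l0, l1, l2, l3⟩ := hc.lz s hs
  have a1 := D.lit _ l0
  have a2 := D.lit _ l1
  have a3 := D.lit _ l2
  have a4 := D.lit _ l3
  have b1 := D.cx
  have b2 := D.ca
  have b3 := D.cF
  have b4 := D.ccR
  have b5 := D.cv
  have b6 := D.caz
  rw [hi] at a1 a2 a3 a4 b1 b2 b3 b4 b5 b6
  have e3 : (D.p2.qs H.t - D.p1.qs ((Pj.id S).qs H.t)) * D.p1.qs (H.v - (f.k0 s + f.k1 s * H.x + f.c s * H.F)) ∈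
      Id D.D (w * s) := by
    have e4 := (Id D.D (w * s)).sub_mem e2 e1
    have e5 : (D.p2.qs H.t - D.p1.qs ((Pj.id S).qs H.t)) * D.p1.qs (H.v - (f.k0 s + f.k1 s * H.x + f.c s * H.F)) =
        D.p2.qs (H.z - (f.z0 s + f.k0 s * H.t + f.k1 s * H.y + f.c s * H.R)) -
          D.p1.qs (H.z - (f.z0 s + f.k0 s * H.t + f.k1 s * H.y + f.c s * H.R)) := by
      rw [hi]
      simp only [map_sub, map_add, map_mul, y_eq H.toHD0, R_eq H.toHD0, z_eq H.toHD0, ← a1, ← a2, ← a3, ← a4, ← b1,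
        ← b2, ← b3, ← b4, ← b5, ← b6]
      ring
    rw [e5]
    exact e4
  have e6 := div_small hs1 D.small (D.real ⊥) hws e3
  have h0 := hc.nn s hs
  exact (Pj.qs_mem_Id D.p1 (by linarith)).mp e6

end

end Pool.Agent.Helper79.NF
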